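import Mathlib

set_option autoImplicit false

namespace Pool.Agent.Results.MP_b62331_al.Counterexample

/-- A class of finite groups (a predicate on groups) closed under isomorphism and under taking
subgroups. -/
structure IsSubgroupClosedClass (X : (P : Type) → [Group P] → Prop) : Prop where
  finite : ∀ (P : Type) [Group P], X P → Finite P
  iso : ∀ (P Q : Type) [Group P] [Group Q], (P ≃* Q) → X P → X Q
  subgroup : ∀ (P : Type) [Group P] (Q : Subgroup P), X P → X Q

section Defs

variable (X : (P : Type) → [Group P] → Prop) {G : Type} [Group G]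

/-- `H` is a maximal `X`-subgroup of `G`. -/
def IsMaxXSubgroup (H : Subgroup G) : Prop :=
  X H ∧ ∀ K : Subgroup G, X K → ¬ H < K

/-- `H` is a maximal normal `X`-subgroup of `G`. -/
def IsMaxNormalXSubgroup (H : Subgroup G) : Prop :=
  (H.Normal ∧ X H) ∧ ∀ K : Subgroup G, K.Normal → X K → ¬ H < K

/-- `a_G(H)`: the number of `X`-subgroups `K > H` with `|K : H| = p`. -/
noncomputable def aCount (p : ℕ) (H : Subgroup G) : ℕ :=
  Nat.card {K : Subgroup G // H < K ∧ X K ∧ H.relIndex K = p}

/-- `b_G(H)`: the number of maximal `X`-subgroups `K ≥ H`. -/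
noncomputable def bCount (H : Subgroup G) : ℕ :=
  Nat.card {K : Subgroup G // H ≤ K ∧ IsMaxXSubgroup X K}

/-- `c_{k,G}(H)`: the number of `X`-subgroups `K ≥ H` of order `p ^ k`. -/
noncomputable def cCount (p k : ℕ) (H : Subgroup G) : ℕ :=
  Nat.card {K : Subgroup G // H ≤ K ∧ X K ∧ Nat.card K = p ^ k}

/-- `sup_G(H)`: the least order of a maximal `X`-subgroup containing `H`. -/
noncomputable def supOrder (H : Subgroup G) : ℕ :=
  sInf {n : ℕ | ∃ K : Subgroup G, H ≤ K ∧ IsMaxXSubgroup X K ∧ Nat.card K = n}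

variable (G)

/-- Condition (A) for `G`. -/
def ConditionA (p : ℕ) : Prop :=
  ∀ H : Subgroup G, X H → aCount X p H = 0 ∨ aCount X p H ≡ 1 [MOD p]

/-- Condition (B) for `G`. -/
def ConditionB (p : ℕ) : Prop :=
  ∀ H : Subgroup G, X H → bCount X H ≡ 1 [MOD p]

/-- Condition (C) for `G`. -/
def ConditionC (p : ℕ) : Prop :=
  ∀ H : Subgroup G, X H → ∀ k : ℕ, Nat.card H ≤ p ^ k → p ^ k ≤ supOrder X H →
    cCount X p k H ≡ 1 [MOD p]

end Defs

end Pool.Agent.Results.MP_b62331_al.Counterexample
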