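import Pool.Agent.Work.MP_b62331_al.Defs

set_option autoImplicit false

namespace Pool.Agent.Results.MP_b62331_al.Counterexample

/-! ### The class -/

/-- The class used: groups of order dividing `p ^ 3` which are commutative or generated by
elements `g` with `g ^ p = 1`. -/
def XCls (p : ℕ) (P : Type) [Group P] : Prop :=
  Nat.card P ∣ p ^ 3 ∧
    ((∀ a b : P, a * b = b * a) ∨ Subgroup.closure {g : P | g ^ p = 1} = ⊤)

lemma comm_of_card_dvd_sq {p : ℕ} (hp : p.Prime) {P : Type} [Group P]
    (h : Nat.card P ∣ p ^ 2) : ∀ a b : P, a * b = b * a := by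
  have : Fact p.Prime := ⟨hp⟩
  obtain ⟨k, hk, hc⟩ := (Nat.dvd_prime_pow hp).1 h
  have hk' : k = 0 ∨ k = 1 ∨ k = 2 := by omega
  rcases hk' with rfl | rfl | rfl
  · have : Subsingleton P := by
      rw [pow_zero] at hc
      exact (Nat.card_eq_one_iff_unique.1 hc).1
    intro a b
    exact Subsingleton.elim _ _
  · rw [pow_one] at hc
    have : IsCyclic P := isCyclic_of_prime_card hc
    intro a b
    exact (IsCyclic.commGroup (α := P)).mul_comm a b
  · have := IsPGroup.isMulCommutative_of_card_eq_prime_sq (p := p) (G := P) hc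
    intro a b
    exact this.is_comm.comm a b

lemma xcls_surj {p : ℕ} (hp : p.Prime) (P Q : Type) [Group P] [Group Q] (f : P →* Q)
    (hf : Function.Surjective f) (h : XCls p P) : XCls p Q := by
  obtain ⟨h1, h2⟩ := h
  have hfin : Finite P := Nat.finite_of_card_ne_zero (fun h0 => by
    rw [h0] at h1
    exact (pow_ne_zero 3 hp.ne_zero) (zero_dvd_iff.1 h1))
  refine ⟨(Subgroup.card_dvd_of_surjective f hf).trans h1, ?_⟩
  rcases h2 with h2 | h2
  · left
    intro a b
    obtain ⟨a, rfl⟩ := hf a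
    obtain ⟨b, rfl⟩ := hf b
    rw [← map_mul, h2, map_mul]
  · right
    rw [eq_top_iff, ← MonoidHom.range_eq_top.2 hf, MonoidHom.range_eq_map, ← h2,
      MonoidHom.map_closure]
    apply Subgroup.closure_mono
    rintro _ ⟨g, hg, rfl⟩
    simp only [Set.mem_ofPred_eq] at hg ⊢
    rw [← map_pow, hg, map_one]

lemma xcls_finite {p : ℕ} (hp : p.Prime) (P : Type) [Group P] (h : XCls p P) : Finite P :=
  Nat.finite_of_card_ne_zero (fun h0 => by
    have h1 := h.1
    rw [h0] at h1
    exact (pow_ne_zero 3 hp.ne_zero) (zero_dvd_iff.1 h1))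

/-- If `|A|` properly divides a divisor of `p^3`, it divides `p^2`. -/
lemma dvd_sq_of_lt {p a b : ℕ} (hp : p.Prime) (hab : a ∣ b) (hb : b ∣ p ^ 3) (hne : a ≠ b) :
    a ∣ p ^ 2 := by
  obtain ⟨k, hk, rfl⟩ := (Nat.dvd_prime_pow hp).1 hb
  obtain ⟨j, hj, rfl⟩ := (Nat.dvd_prime_pow hp).1 hab
  have : j ≠ k := fun h => hne (by rw [h])
  exact pow_dvd_pow p (by omega)

lemma card_ne_of_lt {G : Type} [Group G] [Finite G] {H K : Subgroup G} (h : H < K) :
    Nat.card H ≠ Nat.card K := by
  intro hc
  exact h.ne (Subgroup.eq_of_le_of_card_ge h.le hc.ge)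

lemma xcls_subgroup {p : ℕ} (hp : p.Prime) (P : Type) [Group P] (Q : Subgroup P)
    (h : XCls p P) : XCls p Q := by
  have := xcls_finite hp P h
  by_cases hQ : Q = ⊤
  · subst hQ
    let e : P ≃* (⊤ : Subgroup P) := Subgroup.topEquiv.symm
    exact xcls_surj hp P (⊤ : Subgroup P) e.toMonoidHom (by exact e.surjective) h
  · obtain ⟨h1, h2⟩ := h
    refine ⟨(Subgroup.card_subgroup_dvd_card Q).trans h1, ?_⟩
    left
    apply comm_of_card_dvd_sq hp
    have hlt : Q < ⊤ := lt_top_iff_ne_top.2 hQ
    have := card_ne_of_lt hlt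
    rw [Subgroup.card_top] at this
    exact dvd_sq_of_lt hp (Subgroup.card_subgroup_dvd_card Q) h1 this

lemma xcls_closed {p : ℕ} (hp : p.Prime) : IsSubgroupClosedClass (XCls p) where
  finite := fun P _ h => xcls_finite hp P h
  iso := fun P Q _ _ e h => xcls_surj hp P Q e.toMonoidHom e.surjective h
  subgroup := fun P _ Q h => xcls_subgroup hp P Q h

/-! ### Maximal normal members of the class are maximal members -/

/-- A nontrivial normal subgroup of a finite `p`-group contains a central element of order `p`. -/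
lemma exists_central_of_normal {p : ℕ} [Fact p.Prime] {Q : Type} [Group Q] [Finite Q]
    (hQ : IsPGroup p Q) (C : Subgroup Q) [C.Normal] (hC : C ≠ ⊥) :
    ∃ z : Q, z ∈ C ∧ z ∈ Subgroup.center Q ∧ orderOf z = p := by
  have hQ' : IsPGroup p (ConjAct Q) := hQ.of_equiv ConjAct.toConjAct
  have hCp : IsPGroup p C := hQ.to_subgroup C
  have hdvd : p ∣ Nat.card C := by
    rcases hCp.card_eq_or_dvd with h | h
    · exact absurd (Subgroup.card_eq_one.1 h) hC
    · exact h
  have h1 : (1 : C) ∈ MulAction.fixedPoints (ConjAct Q) C := by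
    intro g
    exact smul_one g
  obtain ⟨b, hb, hb1⟩ :=
    hQ'.exists_fixed_point_of_prime_dvd_card_of_fixed_point C hdvd h1
  have hbc : (b : Q) ∈ Subgroup.center Q := by
    rw [Subgroup.mem_center_iff]
    intro g
    have := hb (ConjAct.toConjAct g)
    have h2 : (((ConjAct.toConjAct g) • b : C) : Q) = (b : Q) := by rw [this]
    rw [ConjAct.Subgroup.val_conj_smul, ConjAct.toConjAct_smul] at h2
    exact mul_inv_eq_iff_eq_mul.1 h2
  have hb1' : (b : Q) ≠ 1 := fun h => hb1 (Subtype.ext (by simpa using h.symm))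
  have hdo : p ∣ orderOf (b : Q) := hQ.dvd_orderOf hb1'
  refine ⟨(b : Q) ^ (orderOf (b : Q) / p), C.pow_mem b.2 _, Subgroup.pow_mem _ hbc _, ?_⟩
  obtain ⟨m, hm⟩ := hdo
  have hpos : 0 < orderOf (b : Q) := orderOf_pos _
  have hp0 : 0 < p := (Fact.out : p.Prime).pos
  rw [hm, Nat.mul_div_cancel_left _ hp0]
  have hm0 : m ≠ 0 := by
    rintro rfl
    rw [mul_zero] at hm
    omega
  rw [orderOf_pow' _ hm0, hm, Nat.gcd_eq_right (Dvd.intro_left p rfl), Nat.mul_div_cancel _
    (Nat.pos_of_ne_zero hm0)]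

/-- If the centraliser of an abelian normal subgroup `N` of a finite `p`-group is larger than `N`,
there is an abelian normal subgroup `K > N` with `|K| = p |N|`. -/
lemma exists_normal_extension {p : ℕ} [Fact p.Prime] {G : Type} [Group G] [Finite G]
    (hG : IsPGroup p G) (N : Subgroup G) [N.Normal]
    (hN : ∀ a ∈ N, ∀ b ∈ N, a * b = b * a)
    (hC : ¬ Subgroup.centralizer (N : Set G) ≤ N) :
    ∃ K : Subgroup G, K.Normal ∧ N < K ∧ Nat.card K = Nat.card N * p ∧
      ∀ a b : K, a * b = b * a := by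
  have hNC : N ≤ Subgroup.centralizer (N : Set G) := by
    intro a ha
    rw [Subgroup.mem_centralizer_iff]
    intro b hb
    exact hN b hb a ha
  let π : G →* G ⧸ N := QuotientGroup.mk' N
  have hπ : Function.Surjective π := QuotientGroup.mk'_surjective N
  have hker : π.ker = N := QuotientGroup.ker_mk' N
  let Cb : Subgroup (G ⧸ N) := (Subgroup.centralizer (N : Set G)).map π
  have hCbn : Cb.Normal := Subgroup.Normal.map inferInstance π hπ
  have hCb : Cb ≠ ⊥ := by
    intro h
    apply hC
    rw [Subgroup.map_eq_bot_iff, hker] at h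
    exact h
  obtain ⟨z, hzC, hzZ, hzo⟩ := exists_central_of_normal (hG.to_quotient N) Cb hCb
  have hzn : (Subgroup.zpowers z).Normal := by
    refine ⟨fun n hn g => ?_⟩
    have hn' : n ∈ Subgroup.center (G ⧸ N) := (Subgroup.zpowers_le.2 hzZ) hn
    have : g * n * g⁻¹ = n := by
      rw [Subgroup.mem_center_iff.1 hn' g, mul_inv_cancel_right]
    rw [this]
    exact hn
  let K : Subgroup G := (Subgroup.zpowers z).comap π
  have hKn : K.Normal := Subgroup.Normal.comap hzn π
  have hNK : N ≤ K := by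
    rw [← hker]
    exact Subgroup.ker_le_comap π _
  have hKC : K ≤ Subgroup.centralizer (N : Set G) := by
    intro k hk
    have h1 : π k ∈ Cb := (Subgroup.zpowers_le.2 hzC) hk
    obtain ⟨c, hc, hck⟩ := h1
    have h2 : c⁻¹ * k ∈ N := by
      rw [← hker, MonoidHom.mem_ker, map_mul, map_inv, hck, inv_mul_cancel]
    have : k = c * (c⁻¹ * k) := by group
    rw [this]
    exact Subgroup.mul_mem _ hc (hNC h2)
  have hcard : Nat.card K = Nat.card N * p := by
    have h1 := Subgroup.card_mul_index K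
    have h2 := Subgroup.card_mul_index (Subgroup.zpowers z)
    have h3 := Subgroup.card_mul_index N
    have h4 : K.index = (Subgroup.zpowers z).index := Subgroup.index_comap_of_surjective _ hπ
    rw [Nat.card_zpowers, hzo] at h2
    have h5 : N.index = Nat.card (G ⧸ N) := rfl
    have hpos : 0 < (Subgroup.zpowers z).index := Nat.pos_of_ne_zero Subgroup.index_ne_zero_of_finite
    apply Nat.eq_of_mul_eq_mul_right hpos
    calc Nat.card K * (Subgroup.zpowers z).index = Nat.card G := by rw [← h4, h1]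
      _ = Nat.card N * N.index := h3.symm
      _ = Nat.card N * (p * (Subgroup.zpowers z).index) := by rw [h5, h2]
      _ = _ := by ring
  refine ⟨K, hKn, ?_, hcard, ?_⟩
  · refine lt_of_le_of_ne hNK (fun h => ?_)
    rw [← h] at hcard
    have h0 : 0 < Nat.card N := Nat.card_pos
    have h1 : 1 < p := (Fact.out : p.Prime).one_lt
    nlinarith
  · have hcyc : IsCyclic (Subgroup.zpowers z) := inferInstance
    let f : K →* Subgroup.zpowers z :=
      (π.comp K.subtype).codRestrict (Subgroup.zpowers z) (fun k => k.2)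
    have hf : f.ker ≤ Subgroup.center K := by
      intro k hk
      rw [MonoidHom.mem_ker] at hk
      have hk' : π (k : G) = 1 := congrArg Subtype.val hk
      have hkN : (k : G) ∈ N := by
        rw [← hker, MonoidHom.mem_ker]
        exact hk'
      rw [Subgroup.mem_center_iff]
      intro g
      apply Subtype.ext
      have := Subgroup.mem_centralizer_iff.1 (hKC g.2) (k : G) hkN
      simpa using this.symm
    have := f.isMulCommutative_of_isCyclic_of_ker_le_center hf
    intro a b
    exact this.is_comm.comm a b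

/-- If `N` is a normal self-centralising subgroup of order dividing `p ^ 2` in a finite
`p`-group `G`, then `|G|` divides `p ^ 3`. -/
lemma card_dvd_of_self_centralizing {p : ℕ} (hp : p.Prime) {G : Type} [Group G] [Finite G]
    (hG : IsPGroup p G) (N : Subgroup G) [N.Normal] (hNc : Nat.card N ∣ p ^ 2)
    (hC : Subgroup.centralizer (N : Set G) ≤ N) : Nat.card G ∣ p ^ 3 := by
  have : Fact p.Prime := ⟨hp⟩
  have hcomm := comm_of_card_dvd_sq hp hNc
  have hC' : Subgroup.centralizer (N : Set G) = N := by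
    apply le_antisymm hC
    intro a ha
    rw [Subgroup.mem_centralizer_iff]
    intro b hb
    exact congrArg Subtype.val (hcomm ⟨b, hb⟩ ⟨a, ha⟩)
  -- if `N` is central then `N = G`
  by_cases hNZ : N ≤ Subgroup.center G
  · have : (⊤ : Subgroup G) ≤ N := by
      rw [← hC']
      intro g _
      rw [Subgroup.mem_centralizer_iff]
      intro b hb
      exact ((Subgroup.mem_center_iff.1 (hNZ hb)) g).symm
    have h1 : Nat.card N = Nat.card G := by
      rw [top_le_iff.1 this, Subgroup.card_top]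
    rw [← h1]
    exact hNc.trans (pow_dvd_pow p (by norm_num))
  · obtain ⟨n0, hn0, hn0Z⟩ := SetLike.not_le_iff_exists.1 hNZ
    have hNbot : N ≠ ⊥ := by
      rintro rfl
      exact hNZ bot_le
    obtain ⟨z, hzN, hzZ, hzo⟩ := exists_central_of_normal hG N hNbot
    -- the subgroup of central elements in `N`
    let Z : Subgroup G := N ⊓ Subgroup.center G
    have hZN : Z < N := by
      refine lt_of_le_of_ne inf_le_left (fun h => hNZ ?_)
      rw [← h]
      exact inf_le_right
    have hZp : Nat.card Z ∣ p ^ 1 := by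
      have h1 : Nat.card Z ∣ Nat.card N := Subgroup.card_dvd_of_le hZN.le
      obtain ⟨k, hk, hck⟩ := (Nat.dvd_prime_pow hp).1 hNc
      obtain ⟨j, hj, hcj⟩ := (Nat.dvd_prime_pow hp).1 (hck ▸ h1)
      have hne := card_ne_of_lt hZN
      have : j ≠ k := fun h => hne (by rw [hcj, hck, h])
      rw [hcj]
      exact pow_dvd_pow p (by omega)
    have hzZ' : z ∈ Z := ⟨hzN, hzZ⟩
    have hpZ : p ∣ Nat.card Z := by
      rw [← hzo]
      exact Subgroup.orderOf_dvd_natCard Z hzZ'
    have hcardZ : Nat.card Z = p := by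
      rw [pow_one] at hZp
      exact Nat.dvd_antisymm hZp hpZ
    have hcardN : Nat.card N = p ^ 2 := by
      obtain ⟨k, hk, hck⟩ := (Nat.dvd_prime_pow hp).1 hNc
      have h1 : Nat.card Z < Nat.card N :=
        lt_of_le_of_ne (Nat.le_of_dvd Nat.card_pos (Subgroup.card_dvd_of_le hZN.le))
          (card_ne_of_lt hZN)
      rw [hcardZ, hck] at h1
      have h2 : 1 < k := by
        by_contra h
        have : k ≤ 1 := by omega
        have := Nat.pow_le_pow_right hp.pos this
        rw [pow_one] at this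
        omega
      rw [hck, show k = 2 by omega]
    -- the conjugacy class of `n0`
    have horb : ((MulAction.orbit (ConjAct G) n0)).ncard < p ^ 2 := by
      have hsub : MulAction.orbit (ConjAct G) n0 ⊆ (N : Set G) \ {1} := by
        rintro _ ⟨g, rfl⟩
        refine ⟨?_, ?_⟩
        · show g • n0 ∈ N
          rw [ConjAct.smul_def]
          exact Subgroup.Normal.conj_mem inferInstance n0 hn0 _
        · intro h
          have h' : g • n0 = 1 := h
          rw [ConjAct.smul_def] at h'
          apply hn0Z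
          have : n0 = 1 := by
            have h2 := conj_eq_one_iff.1 h'
            exact h2
          rw [this]
          exact Subgroup.one_mem _
      have hfin : ((N : Set G) \ {1}).Finite := Set.toFinite _
      have h1 := Set.ncard_le_ncard hsub hfin
      have h2 : ((N : Set G) \ {1}).ncard < (N : Set G).ncard := by
        apply Set.ncard_lt_ncard _ (Set.toFinite _)
        refine ⟨Set.sdiff_subset, fun h => ?_⟩
        have := h N.one_mem
        exact this.2 rfl
      have h3 : (N : Set G).ncard = p ^ 2 := by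
        rw [← hcardN]
        exact (Nat.card_coe_set_eq _)
      omega
    have hidx : (Subgroup.centralizer (N : Set G)).index ∣ p := by
      have hst : MulAction.stabilizer (ConjAct G) n0 ≤
          (Subgroup.centralizer (N : Set G)).map ConjAct.toConjAct.toMonoidHom := by
        intro g hg
        refine ⟨ConjAct.ofConjAct g, ?_, rfl⟩
        have hg' : ConjAct.ofConjAct g * n0 * (ConjAct.ofConjAct g)⁻¹ = n0 := by
          have := MulAction.mem_stabilizer_iff.1 hg
          rwa [ConjAct.smul_def] at this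
        -- the centraliser of `g` meets `N` in more than `Z`
        let h : G := ConjAct.ofConjAct g
        let W : Subgroup G := N ⊓ Subgroup.centralizer {h}
        have hZW : Z ≤ W := by
          intro w hw
          refine ⟨hw.1, ?_⟩
          show w ∈ Subgroup.centralizer {h}
          rw [Subgroup.mem_centralizer_iff]
          intro b hb
          rw [Set.mem_singleton_iff.1 hb]
          exact Subgroup.mem_center_iff.1 hw.2 h
        have hn0W : n0 ∈ W := by
          refine ⟨hn0, ?_⟩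
          show n0 ∈ Subgroup.centralizer {h}
          rw [Subgroup.mem_centralizer_iff]
          intro b hb
          rw [Set.mem_singleton_iff.1 hb]
          exact mul_inv_eq_iff_eq_mul.1 hg'
        have hZW' : Z < W := by
          refine lt_of_le_of_ne hZW (fun h1 => ?_)
          have : n0 ∈ Z := h1 ▸ hn0W
          exact hn0Z this.2
        have hWN : W = N := by
          apply Subgroup.eq_of_le_of_card_ge inf_le_left
          have h1 : Nat.card W ∣ p ^ 2 := by
            rw [← hcardN]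
            exact Subgroup.card_dvd_of_le inf_le_left
          obtain ⟨k, hk, hck⟩ := (Nat.dvd_prime_pow hp).1 h1
          have h2 : Nat.card Z < Nat.card W :=
            lt_of_le_of_ne (Nat.le_of_dvd Nat.card_pos (Subgroup.card_dvd_of_le hZW'.le))
              (card_ne_of_lt hZW')
          rw [hcardZ, hck] at h2
          have h3 : 1 < k := by
            by_contra h
            have : k ≤ 1 := by omega
            have := Nat.pow_le_pow_right hp.pos this
            rw [pow_one] at this
            omega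
          rw [hcardN, hck, show k = 2 by omega]
        show h ∈ Subgroup.centralizer (N : Set G)
        rw [Subgroup.mem_centralizer_iff]
        intro b hb
        have hbW : b ∈ W := by rw [hWN]; exact hb
        exact (Subgroup.mem_centralizer_iff.1 hbW.2 h rfl).symm
      have h1 : (MulAction.stabilizer (ConjAct G) n0).index =
          (MulAction.orbit (ConjAct G) n0).ncard := MulAction.index_stabilizer _ _
      have hGc : IsPGroup p (ConjAct G) := hG.of_equiv ConjAct.toConjAct
      have hfin : Finite (ConjAct G) := Finite.of_equiv G ConjAct.toConjAct.toEquiv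
      obtain ⟨m, hm⟩ := hGc.index (MulAction.stabilizer (ConjAct G) n0)
      have hm1 : m ≤ 1 := by
        by_contra h
        have : 2 ≤ m := by omega
        have := Nat.pow_le_pow_right hp.pos this
        omega
      have h2 : ((Subgroup.centralizer (N : Set G)).map ConjAct.toConjAct.toMonoidHom).index ∣
          (MulAction.stabilizer (ConjAct G) n0).index := Subgroup.index_dvd_of_le hst
      have h3 : ((Subgroup.centralizer (N : Set G)).map ConjAct.toConjAct.toMonoidHom).index =
          (Subgroup.centralizer (N : Set G)).index :=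
        Subgroup.index_map_equiv _ ConjAct.toConjAct
      rw [← h3]
      refine h2.trans ?_
      rw [hm]
      calc p ^ m ∣ p ^ 1 := pow_dvd_pow p hm1
        _ = p := pow_one p
    rw [hC'] at hidx
    rw [← Subgroup.card_mul_index N, hcardN, pow_succ]
    exact Nat.mul_dvd_mul_left _ hidx

lemma max_of_maxNormal {p : ℕ} (hp : p.Prime) (G : Type) [Group G] [Finite G]
    (hG : IsPGroup p G) (N : Subgroup G) (hN : IsMaxNormalXSubgroup (XCls p) N) :
    IsMaxXSubgroup (XCls p) N := by
  have : Fact p.Prime := ⟨hp⟩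
  obtain ⟨⟨hnorm, hXN⟩, hmax⟩ := hN
  refine ⟨hXN, fun K hXK hlt => ?_⟩
  have hNc : Nat.card N ∣ p ^ 2 :=
    dvd_sq_of_lt hp (Subgroup.card_dvd_of_le hlt.le) hXK.1 (card_ne_of_lt hlt)
  have hcomm := comm_of_card_dvd_sq hp hNc
  by_cases hC : Subgroup.centralizer (N : Set G) ≤ N
  · have hGc := card_dvd_of_self_centralizing hp hG N hNc hC
    -- `K = ⊤`
    have hKtop : K = ⊤ ∨ Nat.card K ∣ p ^ 2 := by
      by_cases h : K = ⊤
      · exact Or.inl h
      · right
        have hlt2 : K < ⊤ := lt_top_iff_ne_top.2 h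
        have h2 := card_ne_of_lt hlt2
        rw [Subgroup.card_top] at h2
        exact dvd_sq_of_lt hp (Subgroup.card_subgroup_dvd_card K) hGc h2
    rcases hKtop with h | h
    · subst h
      exact hmax ⊤ inferInstance hXK hlt
    · -- then `K` is abelian, hence inside the centraliser of `N`
      have hKcomm := comm_of_card_dvd_sq hp h
      have : K ≤ Subgroup.centralizer (N : Set G) := by
        intro k hk
        rw [Subgroup.mem_centralizer_iff]
        intro b hb
        exact congrArg Subtype.val (hKcomm ⟨b, hlt.le hb⟩ ⟨k, hk⟩)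
      exact absurd (this.trans hC) (not_le_of_gt hlt)
  · obtain ⟨K', hK'n, hNK', hcard, hK'c⟩ := exists_normal_extension hG N
      (fun a ha b hb => congrArg Subtype.val (hcomm ⟨a, ha⟩ ⟨b, hb⟩)) hC
    refine hmax K' hK'n ⟨?_, Or.inl hK'c⟩ hNK'
    rw [hcard, pow_succ]
    exact Nat.mul_dvd_mul_right hNc p

/-! ### The group of order `p ^ 4` -/

/-- The additive map `ZMod p → ZMod (p ^ 2)`, `x ↦ p x`. -/
noncomputable def iota (p : ℕ) : ZMod p →+ ZMod (p ^ 2) :=
  ZMod.lift p ⟨(AddMonoidHom.mulRight (p : ZMod (p ^ 2))).comp (Int.castAddHom (ZMod (p ^ 2))), by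
    have h : ((p : ZMod (p ^ 2)) * (p : ZMod (p ^ 2))) = 0 := by
      rw [← Nat.cast_mul, ← pow_two]
      exact ZMod.natCast_self (p ^ 2)
    simpa using h⟩

lemma iota_natCast (p n : ℕ) : iota p (n : ZMod p) = (n : ZMod (p ^ 2)) * p := by
  have := ZMod.lift_coe p ⟨(AddMonoidHom.mulRight (p : ZMod (p ^ 2))).comp
    (Int.castAddHom (ZMod (p ^ 2))), by
    have h : ((p : ZMod (p ^ 2)) * (p : ZMod (p ^ 2))) = 0 := by
      rw [← Nat.cast_mul, ← pow_two]
      exact ZMod.natCast_self (p ^ 2)
    simpa using h⟩ (n : ℤ)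
  simpa [iota] using this

lemma iota_injective {p : ℕ} (hp : p.Prime) : Function.Injective (iota p) := by
  have : NeZero p := ⟨hp.ne_zero⟩
  rw [injective_iff_map_eq_zero]
  intro a ha
  obtain ⟨n, rfl⟩ : ∃ n : ℕ, (n : ZMod p) = a := ⟨a.val, ZMod.natCast_zmod_val a⟩
  rw [iota_natCast, ← Nat.cast_mul, ZMod.natCast_eq_zero_iff, pow_two] at ha
  rw [ZMod.natCast_eq_zero_iff]
  exact Nat.dvd_of_mul_dvd_mul_right hp.pos ha

/-- The central product of the extraspecial group `⟨x, y⟩` of order `p ^ 3` generated by elements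
of order `p` and a cyclic group of order `p ^ 2`. -/
@[ext] structure Grp (p : ℕ) where
  /-- first coordinate -/
  a : ZMod p
  /-- second coordinate -/
  b : ZMod p
  /-- central coordinate -/
  c : ZMod (p ^ 2)

namespace Grp

variable {p : ℕ}

noncomputable instance : Mul (Grp p) :=
  ⟨fun g h => ⟨g.a + h.a, g.b + h.b, g.c + h.c + iota p (g.a * h.b)⟩⟩

noncomputable instance : One (Grp p) := ⟨⟨0, 0, 0⟩⟩

noncomputable instance : Inv (Grp p) := ⟨fun g => ⟨-g.a, -g.b, -g.c + iota p (g.a * g.b)⟩⟩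

@[simp] lemma mul_a (g h : Grp p) : (g * h).a = g.a + h.a := rfl
@[simp] lemma mul_b (g h : Grp p) : (g * h).b = g.b + h.b := rfl
@[simp] lemma mul_c (g h : Grp p) : (g * h).c = g.c + h.c + iota p (g.a * h.b) := rfl
@[simp] lemma one_a : (1 : Grp p).a = 0 := rfl
@[simp] lemma one_b : (1 : Grp p).b = 0 := rfl
@[simp] lemma one_c : (1 : Grp p).c = 0 := rfl
@[simp] lemma inv_a (g : Grp p) : (g⁻¹).a = -g.a := rfl
@[simp] lemma inv_b (g : Grp p) : (g⁻¹).b = -g.b := rfl
@[simp] lemma inv_c (g : Grp p) : (g⁻¹).c = -g.c + iota p (g.a * g.b) := rfl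

noncomputable instance : Group (Grp p) := Group.ofLeftAxioms
  (by
    intro x y z
    ext
    · simp [add_assoc]
    · simp [add_assoc]
    · simp only [mul_c, mul_a, mul_b, add_mul, mul_add, map_add]
      abel)
  (by
    intro x
    ext <;> simp)
  (by
    intro x
    ext
    · simp
    · simp
    · simp)

lemma pow_eq (g : Grp p) (n : ℕ) :
    g ^ n = ⟨n * g.a, n * g.b, n * g.c + (n.choose 2 : ℕ) * iota p (g.a * g.b)⟩ := by
  induction n with
  | zero => ext <;> simp
  | succ n ih =>
    rw [pow_succ, ih]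
    ext
    · simp only [mul_a]
      push_cast
      ring
    · simp only [mul_b]
      push_cast
      ring
    · simp only [mul_c]
      have h1 : iota p ((n : ZMod p) * g.a * g.b) = (n : ZMod (p ^ 2)) * iota p (g.a * g.b) := by
        have : (n : ZMod p) * g.a * g.b = n • (g.a * g.b) := by
          rw [nsmul_eq_mul]
          ring
        rw [this, map_nsmul, nsmul_eq_mul]
      rw [h1, Nat.choose_succ_succ' n 1, Nat.choose_one_right]
      push_cast
      ring

/-- `Grp p` as a product. -/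
def equivProd : Grp p ≃ ZMod p × ZMod p × ZMod (p ^ 2) where
  toFun g := (g.a, g.b, g.c)
  invFun t := ⟨t.1, t.2.1, t.2.2⟩
  left_inv _ := rfl
  right_inv _ := rfl

lemma natCard : Nat.card (Grp p) = p ^ 4 := by
  rw [Nat.card_congr equivProd, Nat.card_prod, Nat.card_prod, Nat.card_zmod, Nat.card_zmod]
  ring

/-- The difference of the first two coordinates. -/
noncomputable def diffHom : Grp p →* Multiplicative (ZMod p) where
  toFun g := Multiplicative.ofAdd (g.b - g.a)
  map_one' := by simp
  map_mul' g h := by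
    rw [← ofAdd_add]
    congr 1
    simp only [mul_a, mul_b]
    ring

/-- Reduction of the central coordinate modulo `p`. -/
noncomputable def red (p : ℕ) : ZMod (p ^ 2) →+* ZMod p :=
  ZMod.castHom (Dvd.intro_left (p ^ 1) rfl) (ZMod p)

lemma red_natCast (n : ℕ) : red p (n : ZMod (p ^ 2)) = (n : ZMod p) := map_natCast _ n

lemma red_iota [NeZero p] (x : ZMod p) : red p (iota p x) = 0 := by
  obtain ⟨n, rfl⟩ : ∃ n : ℕ, (n : ZMod p) = x := ⟨x.val, ZMod.natCast_zmod_val x⟩
  rw [iota_natCast, map_mul, red_natCast, red_natCast, ZMod.natCast_self, mul_zero]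

lemma exists_of_red_eq_zero [NeZero p] {c : ZMod (p ^ 2)} (h : red p c = 0) :
    ∃ x : ZMod p, c = iota p x := by
  have : NeZero (p ^ 2) := ⟨pow_ne_zero 2 (NeZero.ne p)⟩
  obtain ⟨n, rfl⟩ : ∃ n : ℕ, (n : ZMod (p ^ 2)) = c := ⟨c.val, ZMod.natCast_zmod_val c⟩
  rw [red_natCast, ZMod.natCast_eq_zero_iff] at h
  obtain ⟨m, rfl⟩ := h
  refine ⟨(m : ZMod p), ?_⟩
  rw [iota_natCast, Nat.cast_mul, mul_comm]

lemma red_eq_zero_of_mul {p : ℕ} (hp : p.Prime) {c : ZMod (p ^ 2)}
    (h : (p : ZMod (p ^ 2)) * c = 0) : red p c = 0 := by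
  have : NeZero p := ⟨hp.ne_zero⟩
  have : NeZero (p ^ 2) := ⟨pow_ne_zero 2 (NeZero.ne p)⟩
  obtain ⟨n, rfl⟩ : ∃ n : ℕ, (n : ZMod (p ^ 2)) = c := ⟨c.val, ZMod.natCast_zmod_val c⟩
  rw [← Nat.cast_mul, ZMod.natCast_eq_zero_iff, pow_two] at h
  rw [red_natCast, ZMod.natCast_eq_zero_iff]
  exact Nat.dvd_of_mul_dvd_mul_left hp.pos h

/-- The central coordinate modulo `p`, as a homomorphism. -/
noncomputable def cenHom [NeZero p] : Grp p →* Multiplicative (ZMod p) where
  toFun g := Multiplicative.ofAdd (red p g.c)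
  map_one' := by simp
  map_mul' g h := by
    rw [← ofAdd_add]
    congr 1
    rw [mul_c, map_add, map_add, red_iota, add_zero]

variable (p) in
/-- The abelian subgroup `{a = b}` of order `p ^ 3`. -/
noncomputable def Kinf : Subgroup (Grp p) := diffHom.ker

variable (p) in
/-- The extraspecial subgroup of order `p ^ 3`. -/
noncomputable def Kzero [NeZero p] : Subgroup (Grp p) := cenHom.ker

variable (p) in
/-- The subgroup of order `p ^ 2`. -/
noncomputable def Hsub [NeZero p] : Subgroup (Grp p) := Kinf p ⊓ Kzero p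

lemma mem_Kinf {g : Grp p} : g ∈ Kinf p ↔ g.a = g.b := by
  show diffHom g = 1 ↔ _
  rw [show (1 : Multiplicative (ZMod p)) = Multiplicative.ofAdd 0 from rfl]
  show Multiplicative.ofAdd (g.b - g.a) = Multiplicative.ofAdd 0 ↔ _
  rw [Multiplicative.ofAdd.injective.eq_iff, sub_eq_zero, eq_comm]

lemma mem_Kzero [NeZero p] {g : Grp p} : g ∈ Kzero p ↔ red p g.c = 0 := by
  show cenHom g = 1 ↔ _
  rw [show (1 : Multiplicative (ZMod p)) = Multiplicative.ofAdd 0 from rfl]
  show Multiplicative.ofAdd (red p g.c) = Multiplicative.ofAdd 0 ↔ _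
  rw [Multiplicative.ofAdd.injective.eq_iff]

lemma mem_Hsub [NeZero p] {g : Grp p} : g ∈ Hsub p ↔ g.a = g.b ∧ red p g.c = 0 := by
  show g ∈ Kinf p ⊓ Kzero p ↔ _
  rw [Subgroup.mem_inf, mem_Kinf, mem_Kzero]

instance [NeZero p] : Finite (Grp p) := by
  have : NeZero (p ^ 2) := ⟨pow_ne_zero 2 (NeZero.ne p)⟩
  exact Finite.of_equiv _ equivProd.symm

lemma card_Kinf (hp : p.Prime) : Nat.card (Kinf p) = p ^ 3 := by
  have h1 : (Kinf p).index = p := by
    have hs : Function.Surjective (diffHom (p := p)) := by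
      intro u
      refine ⟨⟨0, Multiplicative.toAdd u, 0⟩, ?_⟩
      show Multiplicative.ofAdd (Multiplicative.toAdd u - 0) = u
      simp
    rw [Kinf, Subgroup.index_ker, MonoidHom.range_eq_top.2 hs, Subgroup.card_top]
    exact Nat.card_zmod p
  have h2 := Subgroup.card_mul_index (Kinf p)
  rw [h1, natCard, pow_succ] at h2
  exact Nat.eq_of_mul_eq_mul_right hp.pos h2

lemma card_Kzero (hp : p.Prime) [NeZero p] : Nat.card (Kzero p) = p ^ 3 := by
  have h1 : (Kzero p).index = p := by
    have hs : Function.Surjective (cenHom (p := p)) := by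
      intro u
      refine ⟨⟨0, 0, ((Multiplicative.toAdd u).val : ZMod (p ^ 2))⟩, ?_⟩
      show Multiplicative.ofAdd (red p ((Multiplicative.toAdd u).val : ZMod (p ^ 2))) = u
      rw [red_natCast, ZMod.natCast_zmod_val]
      rfl
    rw [Kzero, Subgroup.index_ker, MonoidHom.range_eq_top.2 hs, Subgroup.card_top]
    exact Nat.card_zmod p
  have h2 := Subgroup.card_mul_index (Kzero p)
  rw [h1, natCard, pow_succ] at h2
  exact Nat.eq_of_mul_eq_mul_right hp.pos h2

lemma card_Hsub (hp : p.Prime) [NeZero p] : Nat.card (Hsub p) = p ^ 2 := by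
  have h0 : Hsub p = ((diffHom (p := p)).prod cenHom).ker := by
    ext g
    show g ∈ Kinf p ⊓ Kzero p ↔ _
    rw [Subgroup.mem_inf, MonoidHom.mem_ker, MonoidHom.prod_apply, Prod.mk_eq_one]
    rfl
  have h1 : (Hsub p).index = p * p := by
    have hs : Function.Surjective ((diffHom (p := p)).prod cenHom) := by
      rintro ⟨u, v⟩
      refine ⟨⟨0, Multiplicative.toAdd u, ((Multiplicative.toAdd v).val : ZMod (p ^ 2))⟩, ?_⟩
      rw [MonoidHom.prod_apply]
      refine Prod.ext ?_ ?_
      · show Multiplicative.ofAdd (Multiplicative.toAdd u - 0) = u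
        simp
      · show Multiplicative.ofAdd (red p ((Multiplicative.toAdd v).val : ZMod (p ^ 2))) = v
        rw [red_natCast, ZMod.natCast_zmod_val]
        rfl
    rw [h0, Subgroup.index_ker, MonoidHom.range_eq_top.2 hs, Subgroup.card_top, Nat.card_prod]
    congr 1 <;> exact Nat.card_zmod p
  have h2 := Subgroup.card_mul_index (Hsub p)
  rw [h1, natCard, show p ^ 4 = p ^ 2 * (p * p) by ring] at h2
  exact Nat.eq_of_mul_eq_mul_right (Nat.mul_pos hp.pos hp.pos) h2

lemma xcls_Kinf (hp : p.Prime) : XCls p (Kinf p) := by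
  refine ⟨by rw [card_Kinf hp], Or.inl ?_⟩
  rintro ⟨g, hg⟩ ⟨h, hh⟩
  rw [mem_Kinf] at hg hh
  apply Subtype.ext
  show g * h = h * g
  ext
  · simp [add_comm]
  · simp [add_comm]
  · simp only [mul_c]
    rw [hg, hh, mul_comm h.b g.b]
    ring

lemma xcls_Kzero (hp : p.Prime) [NeZero p] : XCls p (Kzero p) := by
  refine ⟨by rw [card_Kzero hp], Or.inr ?_⟩
  rw [eq_top_iff]
  rintro ⟨g, hg⟩ _
  have hg' := mem_Kzero.1 hg
  obtain ⟨x, hx⟩ := exists_of_red_eq_zero hg'
  have hpc : (p : ZMod p) = 0 := ZMod.natCast_self p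
  have hchoose : ∀ u : ZMod p, (p : ZMod (p ^ 2)) * iota p u = 0 := by
    intro u
    have : (p : ZMod (p ^ 2)) * iota p u = iota p (p • u) := by
      rw [map_nsmul, nsmul_eq_mul]
    rw [this, nsmul_eq_mul, hpc, zero_mul, map_zero]
  let g1 : Kzero p := ⟨⟨g.a, 0, 0⟩, mem_Kzero.2 (map_zero _)⟩
  let g2 : Kzero p := ⟨⟨0, g.b, 0⟩, mem_Kzero.2 (map_zero _)⟩
  let g3 : Kzero p := ⟨⟨0, 0, iota p (x - g.a * g.b)⟩, mem_Kzero.2 (red_iota _)⟩
  have e : (⟨g, hg⟩ : Kzero p) = g1 * g2 * g3 := by
    apply Subtype.ext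
    show g = (⟨g.a, 0, 0⟩ * ⟨0, g.b, 0⟩ * ⟨0, 0, iota p (x - g.a * g.b)⟩ : Grp p)
    ext
    · simp
    · simp
    · simp [hx]
  rw [e]
  refine Subgroup.mul_mem _ (Subgroup.mul_mem _ ?_ ?_) ?_
  · apply Subgroup.subset_closure
    apply Subtype.ext
    show (⟨g.a, 0, 0⟩ : Grp p) ^ p = 1
    rw [pow_eq]
    ext <;> simp
  · apply Subgroup.subset_closure
    apply Subtype.ext
    show (⟨0, g.b, 0⟩ : Grp p) ^ p = 1
    rw [pow_eq]
    ext <;> simp
  · apply Subgroup.subset_closure
    apply Subtype.ext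
    show (⟨0, 0, iota p (x - g.a * g.b)⟩ : Grp p) ^ p = 1
    rw [pow_eq]
    ext
    · simp
    · simp
    · simp only [one_c, mul_zero, map_zero, add_zero]
      exact hchoose _

lemma key_pow (hp : p.Prime) {g : Grp p} (hg : g ^ p = 1) (hne : g.a ≠ g.b) :
    red p g.c = 0 := by
  apply red_eq_zero_of_mul hp
  rw [pow_eq] at hg
  have hc : (p : ZMod (p ^ 2)) * g.c + (p.choose 2 : ℕ) * iota p (g.a * g.b) = 0 :=
    congrArg Grp.c hg
  have h2 : ((p.choose 2 : ℕ) : ZMod (p ^ 2)) * iota p (g.a * g.b) = 0 := by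
    have : ((p.choose 2 : ℕ) : ZMod (p ^ 2)) * iota p (g.a * g.b) =
        iota p ((p.choose 2) • (g.a * g.b)) := by
      rw [map_nsmul, nsmul_eq_mul]
    rw [this, nsmul_eq_mul]
    rcases hp.eq_two_or_odd' with rfl | hodd
    · have : ∀ a b : ZMod 2, a ≠ b → a * b = 0 := by decide
      rw [this _ _ hne, mul_zero, map_zero]
    · have h3 : p ∣ p.choose 2 := by
        apply hp.dvd_choose_self (by norm_num)
        rcases lt_or_eq_of_le hp.two_le with h | h
        · exact h
        · rw [← h] at hodd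
          exact absurd hodd (by decide)
      rw [(ZMod.natCast_eq_zero_iff _ _).2 h3, zero_mul, map_zero]
  rwa [h2, add_zero] at hc

lemma Hsub_le_Kinf [NeZero p] : Hsub p ≤ Kinf p := inf_le_left

lemma Hsub_le_Kzero [NeZero p] : Hsub p ≤ Kzero p := inf_le_right

lemma pow_lt (hp : p.Prime) : p ^ 2 < p ^ 3 := Nat.pow_lt_pow_right hp.one_lt (by norm_num)

lemma classify (hp : p.Prime) [NeZero p] {K : Subgroup (Grp p)} (hHK : Hsub p ≤ K)
    (hX : XCls p K) (hK : Nat.card K = p ^ 3) : K = Kinf p ∨ K = Kzero p := by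
  by_cases hle : K ≤ Kinf p
  · left
    exact Subgroup.eq_of_le_of_card_ge hle (by rw [hK, card_Kinf hp])
  · right
    rcases hX.2 with h | h
    · exfalso
      apply hle
      intro k hk
      have hh : (⟨1, 1, 0⟩ : Grp p) ∈ K := hHK (mem_Hsub.2 ⟨rfl, map_zero _⟩)
      have h1 : k * ⟨1, 1, 0⟩ = ⟨1, 1, 0⟩ * k := congrArg Subtype.val (h ⟨k, hk⟩ ⟨_, hh⟩)
      have h2 := congrArg Grp.c h1
      simp only [mul_c, mul_one, one_mul, add_zero, zero_add] at h2
      rw [mem_Kinf]
      exact iota_injective hp (add_left_cancel h2)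
    · -- there is an element of order dividing `p` outside `Kinf`
      have hex : ∃ g : Grp p, g ∈ K ∧ g ^ p = 1 ∧ g.a ≠ g.b := by
        by_contra hcon
        push Not at hcon
        apply hle
        have h1 : (⊤ : Subgroup K) ≤ (Kinf p).comap K.subtype := by
          rw [← h, Subgroup.closure_le]
          intro g hg
          show (g : Grp p) ∈ Kinf p
          rw [mem_Kinf]
          exact hcon g g.2 (by simpa using congrArg Subtype.val hg)
        intro k hk
        exact h1 (x := ⟨k, hk⟩) trivial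
      obtain ⟨g, hgK, hgp, hne⟩ := hex
      have hg0 : g ∈ Kzero p := mem_Kzero.2 (key_pow hp hgp hne)
      have hlt : Hsub p < K ⊓ Kzero p := by
        refine lt_of_le_of_ne (le_inf hHK Hsub_le_Kzero) (fun he => ?_)
        have : g ∈ Hsub p := by
          rw [he]
          exact ⟨hgK, hg0⟩
        exact hne (mem_Hsub.1 this).1
      have hcd : Nat.card (K ⊓ Kzero p : Subgroup (Grp p)) ∣ p ^ 3 := by
        rw [← hK]
        exact Subgroup.card_dvd_of_le inf_le_left
      have hcard : Nat.card (K ⊓ Kzero p : Subgroup (Grp p)) = p ^ 3 := by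
        have h1 : p ^ 2 < Nat.card (K ⊓ Kzero p : Subgroup (Grp p)) := by
          rw [← card_Hsub hp]
          exact lt_of_le_of_ne (Nat.le_of_dvd Nat.card_pos (Subgroup.card_dvd_of_le hlt.le))
            (card_ne_of_lt hlt)
        obtain ⟨k, hk, hck⟩ := (Nat.dvd_prime_pow hp).1 hcd
        rw [hck] at h1 ⊢
        have : 2 < k := (Nat.pow_lt_pow_iff_right hp.one_lt).1 h1
        rw [show k = 3 by omega]
      have e1 : K ⊓ Kzero p = K := Subgroup.eq_of_le_of_card_ge inf_le_left (by rw [hK, hcard])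
      have e2 : K ⊓ Kzero p = Kzero p :=
        Subgroup.eq_of_le_of_card_ge inf_le_right (by rw [card_Kzero hp, hcard])
      rw [← e1, e2]

lemma Hsub_lt (hp : p.Prime) [NeZero p] {K : Subgroup (Grp p)} (h : Hsub p ≤ K)
    (hK : Nat.card K = p ^ 3) : Hsub p < K := by
  refine lt_of_le_of_ne h (fun he => ?_)
  rw [← he, card_Hsub hp] at hK
  exact (pow_lt hp).ne hK

lemma Kinf_ne_Kzero (hp : p.Prime) [NeZero p] : Kinf p ≠ Kzero p := by
  intro h
  have h1 : (⟨0, 0, 1⟩ : Grp p) ∈ Kinf p := mem_Kinf.2 rfl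
  rw [h, mem_Kzero] at h1
  have h2 : (1 : ZMod p) = 0 := by simpa using h1
  have : Fact p.Prime := ⟨hp⟩
  exact one_ne_zero h2

lemma isMax_of_card (hp : p.Prime) [NeZero p] {K : Subgroup (Grp p)} (hX : XCls p K)
    (hK : Nat.card K = p ^ 3) : IsMaxXSubgroup (XCls p) K := by
  refine ⟨hX, fun L hL hlt => ?_⟩
  have h1 : Nat.card K ∣ p ^ 2 :=
    dvd_sq_of_lt hp (Subgroup.card_dvd_of_le hlt.le) hL.1 (card_ne_of_lt hlt)
  rw [hK] at h1
  have := Nat.le_of_dvd (pow_pos hp.pos 2) h1
  have := pow_lt hp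
  omega

lemma xcls_Hsub (hp : p.Prime) [NeZero p] : XCls p (Hsub p) := by
  refine ⟨?_, Or.inl (comm_of_card_dvd_sq hp (by rw [card_Hsub hp]))⟩
  rw [card_Hsub hp]
  exact pow_dvd_pow p (by norm_num)

lemma aCount_eq (hp : p.Prime) [NeZero p] : aCount (XCls p) p (Hsub p) = 2 := by
  have hset : {K : Subgroup (Grp p) | Hsub p < K ∧ XCls p K ∧ (Hsub p).relIndex K = p} =
      {Kinf p, Kzero p} := by
    have hrel : ∀ K : Subgroup (Grp p), Hsub p ≤ K →
        ((Hsub p).relIndex K = p ↔ Nat.card K = p ^ 3) := by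
      intro K hle
      have h2 : Nat.card (Hsub p) * (Hsub p).relIndex K = Nat.card K := by
        have := Subgroup.card_mul_index ((Hsub p).subgroupOf K)
        rw [← this, Subgroup.relIndex, Nat.card_congr (Subgroup.subgroupOfEquivOfLe hle).toEquiv]
      rw [← h2, card_Hsub hp]
      constructor
      · intro h
        rw [h]
        ring
      · intro h
        have : p ^ 2 * (Hsub p).relIndex K = p ^ 2 * p := by rw [h]; ring
        exact Nat.eq_of_mul_eq_mul_left (pow_pos hp.pos 2) this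
    ext K
    simp only [Set.mem_ofPred_eq, Set.mem_insert_iff, Set.mem_singleton_iff]
    constructor
    · rintro ⟨h1, h2, h3⟩
      exact classify hp h1.le h2 ((hrel K h1.le).1 h3)
    · rintro (rfl | rfl)
      · exact ⟨Hsub_lt hp Hsub_le_Kinf (card_Kinf hp), xcls_Kinf hp,
          (hrel _ Hsub_le_Kinf).2 (card_Kinf hp)⟩
      · exact ⟨Hsub_lt hp Hsub_le_Kzero (card_Kzero hp), xcls_Kzero hp,
          (hrel _ Hsub_le_Kzero).2 (card_Kzero hp)⟩
  have h1 : aCount (XCls p) p (Hsub p) =
      {K : Subgroup (Grp p) | Hsub p < K ∧ XCls p K ∧ (Hsub p).relIndex K = p}.ncard := rfl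
  rw [h1, hset, Set.ncard_pair (Kinf_ne_Kzero hp)]

lemma max_iff (hp : p.Prime) [NeZero p] (K : Subgroup (Grp p)) :
    (Hsub p ≤ K ∧ IsMaxXSubgroup (XCls p) K) ↔ (K = Kinf p ∨ K = Kzero p) := by
  constructor
  · rintro ⟨h1, h2⟩
    apply classify hp h1 h2.1
    obtain ⟨k, hk, hck⟩ := (Nat.dvd_prime_pow hp).1 h2.1.1
    have hne : Hsub p ≠ K := by
      rintro rfl
      exact h2.2 _ (xcls_Kinf hp) (Hsub_lt hp Hsub_le_Kinf (card_Kinf hp))
    have hlt : Hsub p < K := lt_of_le_of_ne h1 hne
    have h3 : p ^ 2 < Nat.card K := by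
      rw [← card_Hsub hp]
      exact lt_of_le_of_ne (Nat.le_of_dvd Nat.card_pos (Subgroup.card_dvd_of_le hlt.le))
        (card_ne_of_lt hlt)
    rw [hck] at h3 ⊢
    have : 2 < k := (Nat.pow_lt_pow_iff_right hp.one_lt).1 h3
    rw [show k = 3 by omega]
  · rintro (rfl | rfl)
    · exact ⟨Hsub_le_Kinf, isMax_of_card hp (xcls_Kinf hp) (card_Kinf hp)⟩
    · exact ⟨Hsub_le_Kzero, isMax_of_card hp (xcls_Kzero hp) (card_Kzero hp)⟩

lemma bCount_eq (hp : p.Prime) [NeZero p] : bCount (XCls p) (Hsub p) = 2 := by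
  have hset : {K : Subgroup (Grp p) | Hsub p ≤ K ∧ IsMaxXSubgroup (XCls p) K} =
      {Kinf p, Kzero p} := by
    ext K
    exact max_iff hp K
  have h1 : bCount (XCls p) (Hsub p) =
      {K : Subgroup (Grp p) | Hsub p ≤ K ∧ IsMaxXSubgroup (XCls p) K}.ncard := rfl
  rw [h1, hset, Set.ncard_pair (Kinf_ne_Kzero hp)]

lemma cCount_eq (hp : p.Prime) [NeZero p] : cCount (XCls p) p 3 (Hsub p) = 2 := by
  have hset : {K : Subgroup (Grp p) | Hsub p ≤ K ∧ XCls p K ∧ Nat.card K = p ^ 3} =
      {Kinf p, Kzero p} := by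
    ext K
    simp only [Set.mem_ofPred_eq, Set.mem_insert_iff, Set.mem_singleton_iff]
    constructor
    · rintro ⟨h1, h2, h3⟩
      exact classify hp h1 h2 h3
    · rintro (rfl | rfl)
      · exact ⟨Hsub_le_Kinf, xcls_Kinf hp, card_Kinf hp⟩
      · exact ⟨Hsub_le_Kzero, xcls_Kzero hp, card_Kzero hp⟩
  have h1 : cCount (XCls p) p 3 (Hsub p) =
      {K : Subgroup (Grp p) | Hsub p ≤ K ∧ XCls p K ∧ Nat.card K = p ^ 3}.ncard := rfl
  rw [h1, hset, Set.ncard_pair (Kinf_ne_Kzero hp)]

lemma le_supOrder (hp : p.Prime) [NeZero p] : p ^ 3 ≤ supOrder (XCls p) (Hsub p) := by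
  apply le_csInf
  · exact ⟨p ^ 3, Kinf p, ((max_iff hp _).2 (Or.inl rfl)).1, ((max_iff hp _).2 (Or.inl rfl)).2,
      card_Kinf hp⟩
  · rintro n ⟨K, h1, h2, rfl⟩
    rcases (max_iff hp K).1 ⟨h1, h2⟩ with rfl | rfl
    · rw [card_Kinf hp]
    · rw [card_Kzero hp]

end Grp

lemma not_two_modEq_one {p : ℕ} (hp : p.Prime) : ¬ 2 ≡ 1 [MOD p] := by
  intro h
  have := (Nat.modEq_iff_dvd' (by norm_num : 1 ≤ 2)).1 h.symm
  norm_num at this
  exact hp.one_lt.ne' this

/-- **Negative answer to Q1.** For every prime `p` there is a subgroup-closed class `X` of finite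
groups (moreover closed under homomorphic images) such that in every finite `p`-group each maximal
normal `X`-subgroup is a maximal `X`-subgroup, and a group of order `p ^ 4` in which all three
conditions (A), (B), (C) fail. -/
theorem main_aux (p : ℕ) (hp : p.Prime) :
    ∃ X : (P : Type) → [Group P] → Prop,
      IsSubgroupClosedClass X ∧
      (∀ (P Q : Type) [Group P] [Group Q] (f : P →* Q), Function.Surjective f → X P → X Q) ∧
      (∀ (G : Type) [Group G] [Finite G], IsPGroup p G →
        ∀ N : Subgroup G, IsMaxNormalXSubgroup X N → IsMaxXSubgroup X N) ∧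
      ∃ (G : Type) (_ : Group G), Nat.card G = p ^ 4 ∧
        ¬ ConditionA X G p ∧ ¬ ConditionB X G p ∧ ¬ ConditionC X G p := by
  have : NeZero p := ⟨hp.ne_zero⟩
  refine ⟨XCls p, xcls_closed hp, fun P Q _ _ f hf h => xcls_surj hp P Q f hf h,
    fun G _ _ hG N hN => max_of_maxNormal hp G hG N hN,
    Grp p, inferInstance, Grp.natCard, ?_, ?_, ?_⟩
  · intro hA
    have h := hA (Grp.Hsub p) (Grp.xcls_Hsub hp)
    rw [Grp.aCount_eq hp] at h
    rcases h with h | h
    · exact two_ne_zero h
    · exact not_two_modEq_one hp h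
  · intro hB
    have h := hB (Grp.Hsub p) (Grp.xcls_Hsub hp)
    rw [Grp.bCount_eq hp] at h
    exact not_two_modEq_one hp h
  · intro hC
    have h := hC (Grp.Hsub p) (Grp.xcls_Hsub hp) 3
      (by rw [Grp.card_Hsub hp]; exact (Grp.pow_lt hp).le) (Grp.le_supOrder hp)
    rw [Grp.cCount_eq hp] at h
    exact not_two_modEq_one hp h

end Pool.Agent.Results.MP_b62331_al.Counterexample
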